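import Mathlib
import Pool.Agent.Lib.MP_89da58_nt.Defs

set_option autoImplicit false

/-!
Chen type theorem for almost all pairs of consecutive cubes: common definitions.

Everything is in terms of a large natural number `J`; the cubes are `j ^ 3`, `J < j ≤ 2 J`.
-/

namespace Pool.Agent.CH

open Finset
open Pool.Agent.MP89da58 (tri)

/-- The sifting limit `z = (3 J) ^ (3/8)`; note `z ^ 8 = 27 J ^ 3`. -/
noncomputable def zJ (J : ℕ) : ℝ := (3 * (J : ℝ)) ^ (3 / 8 : ℝ)

/-- The window weight: a triangle of logarithmic half width `1/(2J)` centred at `(j + 1/2) ^ 3`. It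
vanishes outside `(j^3, (j+1)^3)` for `J < j ≤ 2 J`. -/
noncomputable def wJ (J j n : ℕ) : ℝ := tri (2 * J * Real.log (n / ((j : ℝ) + 1 / 2) ^ 3))

/-- The long window of logarithmic half width `1 / lam` centred at the same point. -/
noncomputable def wL (lam : ℝ) (j n : ℕ) : ℝ := tri (lam * Real.log (n / ((j : ℝ) + 1 / 2) ^ 3))

/-- All prime factors of `n` are at least `z`. -/
def Rough (z : ℝ) (n : ℕ) : Prop := ∀ p : ℕ, p.Prime → p ∣ n → z ≤ p

/-- `V(z) = ∏_{2 < p < z} (1 - 1/(p-1))`. -/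
noncomputable def VV (z : ℝ) : ℝ :=
  ∏ p ∈ (range ⌈z⌉₊).filter (fun p : ℕ => p.Prime ∧ 2 < p), (1 - 1 / ((p : ℝ) - 1))

/-- Coefficients of sieve type: supported on odd squarefree `d ≤ Q` all of whose prime factors are
less than `z`, bounded by `3`. -/
structure Wt (z Q : ℝ) (c : ℕ → ℝ) : Prop where
  sqf : ∀ d, c d ≠ 0 → Squarefree d
  odd : ∀ d, c d ≠ 0 → Odd d
  le : ∀ d, c d ≠ 0 → (d : ℝ) ≤ Q
  small : ∀ d, c d ≠ 0 → ∀ p : ℕ, p.Prime → p ∣ d → (p : ℝ) < z
  bd : ∀ d, |c d| ≤ 3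

/-- `∑_{d ∣ n} c d`. -/
noncomputable def dsum (c : ℕ → ℝ) (n : ℕ) : ℝ := ∑ d ∈ n.divisors, c d

/-- `log n` on the primes. -/
noncomputable def thP (n : ℕ) : ℝ := if n.Prime then Real.log n else 0

/-- The number of `k`-tuples of primes `≥ z` with product `n`, divided by `k!`. -/
noncomputable def Rk (z : ℝ) (k n : ℕ) : ℝ :=
  (((Fintype.piFinset (fun _ : Fin k => (range (n + 1)).filter
    (fun p : ℕ => p.Prime ∧ z ≤ p))).filter (fun q => ∏ i, q i = n)).card : ℝ) / k.factorial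

/-- The sum of `Rk z k n` over `4 ≤ k ≤ 7`. For a squarefree `n < z ^ 8` all of whose prime factors
are `≥ z` this is `1` if `n` has at least four prime factors, and `0` otherwise. -/
noncomputable def RR (z : ℝ) (n : ℕ) : ℝ := ∑ k ∈ Icc 4 7, Rk z k n

/-- The error term of the residue class `a mod q` for the sequence `f` in the window `j`. -/
noncomputable def EE (J : ℕ) (f : ℕ → ℝ) (a : ℤ) (j q : ℕ) : ℝ :=
  ∑ n ∈ (Icc 1 (27 * J ^ 3)).filter (fun n : ℕ => (q : ℤ) ∣ (n : ℤ) - a), f n * wJ J j n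
    - (1 / (Nat.totient q : ℝ)) * ∑ n ∈ Icc 1 (27 * J ^ 3), f n * wJ J j n

end Pool.Agent.CH
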