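import Pool.Agent.Lib.MP_d610d0_nt.CH.D.Main
import Pool.Agent.Lib.MP_d610d0_nt.CH.S.All
import Pool.Agent.Lib.MP_d610d0_nt.CH.M2.Main
import Pool.Agent.Lib.MP_d610d0_nt.CH.F.All

set_option autoImplicit false

/-!
The final theorem of the project CH (Chen type theorem for almost all pairs of consecutive cubes),
without hypotheses.
-/

namespace Pool.Agent.CH

theorem final : I_final :=
  F.p_F S.p_S D.h_D1 D.h_D2 D.h_M1 (M2.t_M2 P.h_PNT D.h_cmp)

end Pool.Agent.CH
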