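import Pool.Agent.Lib.MP_d610d0_nt.CH.Defs

set_option autoImplicit false

/-!
The interfaces between the sections.
-/

namespace Pool.Agent.CH

open Finset
open scoped ArithmeticFunction.Omega

open Classical in
/-- Interface S: the sieve weights (level `J ^ (999/1000)`, sifting limit `zJ J`, `s = 8/3`). -/
def I_S : Prop := ∃ J0 : ℕ, ∀ J : ℕ, J0 ≤ J → ∃ cp cm : ℕ → ℝ,
  Wt (zJ J) ((J : ℝ) ^ (999 / 1000 : ℝ)) cp ∧ Wt (zJ J) ((J : ℝ) ^ (999 / 1000 : ℝ)) cm ∧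
  (∀ n : ℕ, Odd n → dsum cm n ≤ (if Rough (zJ J) n then 1 else 0)) ∧
  (∀ n : ℕ, Odd n → (if Rough (zJ J) n then 1 else 0) ≤ dsum cp n) ∧
  ∑ d ∈ Icc 1 J, cp d / (Nat.totient d : ℝ) ≤ 1.39 * VV (zJ J) ∧
  0.62 * VV (zJ J) ≤ ∑ d ∈ Icc 1 J, cm d / (Nat.totient d : ℝ)

/-- Interface D1: primes in the progression `-2 mod q`, on average over `q` and `j`. -/
def I_D1 : Prop := ∀ A : ℕ, ∃ C : ℝ, ∀ J : ℕ, 2 ≤ J → ∀ c : ℕ → ℝ,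
  Wt (zJ J) ((J : ℝ) ^ (999 / 1000 : ℝ)) c →
  ∑ j ∈ Ioc J (2 * J), (∑ q ∈ Icc 1 J, c q * EE J thP (-2) j q) ^ 2
    ≤ C * (J : ℝ) ^ 5 / Real.log J ^ A

/-- Interface D2: the almost primes `RR` in the progression `2 mod q`, on average over `q` and `j`. -/
def I_D2 : Prop := ∀ A : ℕ, ∃ C : ℝ, ∀ J : ℕ, 2 ≤ J → ∀ c : ℕ → ℝ,
  Wt (zJ J) ((J : ℝ) ^ (999 / 1000 : ℝ)) c →
  ∑ j ∈ Ioc J (2 * J), (∑ q ∈ Icc 1 J, c q * EE J (RR (zJ J)) 2 j q) ^ 2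
    ≤ C * (J : ℝ) ^ 5 / Real.log J ^ A

/-- Interface M1: the primes have the right density in almost all windows. -/
def I_M1 : Prop := ∀ A : ℕ, ∃ C : ℝ, ∀ J : ℕ, 2 ≤ J →
  (((Ioc J (2 * J)).filter (fun j : ℕ => ∑ n ∈ Icc 1 (27 * J ^ 3), thP n * wJ J j n
    < 0.999 * (((j : ℝ) + 1 / 2) ^ 3 / (2 * J)))).card : ℝ) ≤ C * J / Real.log J ^ A

/-- Interface M2: upper bound for the number of almost primes in almost all windows. -/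
def I_M2 : Prop := ∀ A : ℕ, ∃ C : ℝ, ∀ J : ℕ, 2 ≤ J →
  (((Ioc J (2 * J)).filter (fun j : ℕ => 0.40 * (((j : ℝ) + 1 / 2) ^ 3 / (2 * J)) / (3 * Real.log J)
    < ∑ n ∈ Icc 1 (27 * J ^ 3), RR (zJ J) n * wJ J j n)).card : ℝ) ≤ C * J / Real.log J ^ A

/-- The set of the primes `p` with `n^3 < p`, `p + 2 < (n+1)^3` such that `p + 2` has at most three
prime factors, all of them larger than `n ^ (1/3)`. -/
def chenSet (n : ℕ) : Set ℕ :=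
  {p | p.Prime ∧ n ^ 3 < p ∧ p + 2 < (n + 1) ^ 3 ∧ Ω (p + 2) ≤ 3 ∧
    ∀ q : ℕ, q.Prime → q ∣ p + 2 → n < q ^ 3}

open Classical in
/-- The final statement. -/
def I_final : Prop := ∃ c : ℝ, 0 < c ∧ ∀ A : ℕ, ∃ C : ℝ, ∀ N : ℕ, 2 ≤ N →
  (((Icc 1 N).filter (fun n : ℕ =>
    ((chenSet n).ncard : ℝ) < c * (n : ℝ) ^ 2 / (Real.log (n + 1)) ^ 2)).card : ℝ)
      ≤ C * (N : ℝ) / (Real.log N) ^ A

/-- The final assembly. -/
def S_final : Prop := I_S → I_D1 → I_D2 → I_M1 → I_M2 → I_final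

end Pool.Agent.CH
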